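import Pool.Agent.Helper68.QS.St1

/-!
Project QD (MP_d112a4_gt), straightening and transfer, module RFI: intertwining on the disc implies
intertwining on the sphere for symmetric homeomorphisms.
-/

namespace Pool.Agent.Helper29.QS

open Pool.Agent.Helper68.QS Pool.Agent.Helper68.QC
open Pool.Agent.Helper61.QE (D Dx rf SU Fu FD Ab sy nuT muT syX syY Kap En Et)
open MeasureTheory Set Filter Topology Complex
open scoped ContDiff ComplexConjugate ENNReal

private theorem rf_rf (z : ℂ) : rf (rf z) = z := by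
  unfold rf
  simp

private theorem zD : (0 : ℂ) ∈ D := by simp [D]

private theorem a_ne (hSUB : Pool.Agent.Helper61.QE.StSUB) {A : SL} (hA : SU A) : A 0 0 ≠ 0 := by
  have h := hSUB.2.2.2.2.2.2.2.1 A hA
  intro h0
  rw [h0, norm_zero] at h
  nlinarith [sq_nonneg ‖A 1 0‖]

private theorem d_ne (hSUB : Pool.Agent.Helper61.QE.StSUB) {A : SL} (hA : SU A) : A 1 1 ≠ 0 := by
  rw [hA.1]
  simpa using a_ne hSUB hA

private theorem mob_zero (A : SL) : mob A 0 = A 0 1 / A 1 1 := by
  unfold mob den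
  simp

/-- the image of infinity -/
private theorem rf_mob {A : SL} (hA : SU A) : rf (mob A 0) = A 0 0 / A 1 0 := by
  rw [mob_zero, hA.1, hA.2]
  unfold rf
  simp

private theorem inv_00 (A : SL) : (A⁻¹ : SL) 0 0 = A 1 1 := by
  rw [Matrix.SpecialLinearGroup.coe_inv, Matrix.adjugate_fin_two]
  simp

private theorem inv_10 (A : SL) : (A⁻¹ : SL) 1 0 = -A 1 0 := by
  rw [Matrix.SpecialLinearGroup.coe_inv, Matrix.adjugate_fin_two]
  simp

/-- the pole -/
private theorem den_zero (hSUB : Pool.Agent.Helper61.QE.StSUB) {A : SL} (hA : SU A) (z : ℂ) :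
    den A z = 0 ↔ A 1 0 ≠ 0 ∧ z = rf (mob A⁻¹ 0) := by
  have hi : SU A⁻¹ := (hSUB.2.2.2.2.2.2.1 A A hA hA).2.1
  rw [rf_mob hi, inv_00, inv_10]
  unfold den
  constructor
  · intro h
    have h1 : A 1 0 ≠ 0 := by
      intro h0
      rw [h0, zero_mul, zero_add] at h
      exact d_ne hSUB hA h
    refine ⟨h1, ?_⟩
    rw [eq_div_iff (neg_ne_zero.2 h1)]
    linear_combination -h
  · rintro ⟨h1, h2⟩
    rw [h2]
    field_simp
    ring

theorem pRFI (hSUB : Pool.Agent.Helper61.QE.StSUB) : Pool.Agent.Helper68.QS.StRFI := by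
  intro V A B hV0 hVD hrf hA hB hAB
  have hAi : SU A⁻¹ := (hSUB.2.2.2.2.2.2.1 A A hA hA).2.1
  have hBi : SU B⁻¹ := (hSUB.2.2.2.2.2.2.1 B B hB hB).2.1
  have hinj : Function.Injective V := V.injective
  have hDin : ∀ z ∈ D, V z ∈ D := by
    intro z hz
    rw [← hVD]
    exact mem_image_of_mem _ hz
  have hV0' : ∀ x, V x = 0 ↔ x = 0 := by
    intro x
    constructor
    · intro h
      exact hinj (h.trans hV0.symm)
    · rintro rfl
      exact hV0
  have hdisc : ∀ (A : SL), SU A → ∀ z ∈ D, den A z ≠ 0 := by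
    intro A hA z hz
    exact hSUB.2.2.2.1 A hA z (mem_ball_zero_iff.1 hz).le
  have hmobD : ∀ (A : SL), SU A → ∀ z ∈ D, mob A z ∈ D := by
    intro A hA z hz
    have h1 := hSUB.2.2.2.2.1 A hA z (hdisc A hA z hz)
    have h2 : ‖z‖ < 1 := mem_ball_zero_iff.1 hz
    have h3 : 0 < ‖den A z‖ := norm_pos_iff.2 (hdisc A hA z hz)
    rw [mem_ball_zero_iff]
    by_contra hcon
    push Not at hcon
    have h4 : 0 < 1 - ‖z‖ ^ 2 := by nlinarith [norm_nonneg z]
    have h5 : (1 - ‖mob A z‖ ^ 2) * ‖den A z‖ ^ 2 ≤ 0 :=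
      mul_nonpos_of_nonpos_of_nonneg (by nlinarith) (by positivity)
    linarith
  -- values at the centre
  have h0 : V (mob A 0) = mob B 0 := by
    rw [hAB 0 zD, hV0]
  -- third clause
  have c3 : A 1 0 = 0 ↔ B 1 0 = 0 := by
    have key : ∀ (A : SL), SU A → (A 1 0 = 0 ↔ mob A 0 = 0) := by
      intro A hA
      rw [mob_zero, div_eq_zero_iff]
      constructor
      · intro h
        left
        rw [hA.2] at h
        simpa using h
      · rintro (h | h)
        · rw [hA.2, h, map_zero]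
        · exact absurd h (d_ne hSUB hA)
    rw [key A hA, key B hB, ← h0, hV0']
  -- the preimage of zero
  have hz0 : V (mob A⁻¹ 0) = mob B⁻¹ 0 := by
    have hzD : mob A⁻¹ 0 ∈ D := hmobD _ hAi 0 zD
    have h1 : mob A (mob A⁻¹ 0) = 0 := by
      have := (hSUB.2.2.2.2.2.2.2.2.2 A⁻¹ 0 (hdisc _ hAi 0 zD)).1
      rwa [inv_inv] at this
    have h2 := hAB _ hzD
    rw [h1, hV0] at h2
    have h3 := (hSUB.2.2.2.2.2.2.2.2.2 B (V (mob A⁻¹ 0)) (hdisc _ hB _ (hDin _ hzD))).1
    rw [← h2] at h3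
    exact h3.symm
  -- first clause
  have c1 : ∀ z, den A z = 0 ↔ den B (V z) = 0 := by
    intro z
    rw [den_zero hSUB hA, den_zero hSUB hB, ← hz0, ← hrf]
    have e1 : A 1 0 ≠ 0 ↔ B 1 0 ≠ 0 := not_congr c3
    rw [e1]
    constructor
    · rintro ⟨h1, h2⟩
      exact ⟨h1, by rw [h2]⟩
    · rintro ⟨h1, h2⟩
      exact ⟨h1, hinj h2⟩
  refine ⟨c1, ?_, c3, ?_⟩
  · intro z hz
    rcases lt_trichotomy ‖z‖ 1 with h | h | h
    · exact hAB z (mem_ball_zero_iff.2 h)
    · -- by continuity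
      have hcl : z ∈ closure D := by
        rw [closure_ball _ one_ne_zero]
        simp [h]
      have hne : (𝓝[D] z).NeBot := mem_closure_iff_nhdsWithin_neBot.1 hcl
      have hcA : ContinuousAt (mob A) z := (hSUB.2.1 A z hz).continuousAt
      have hcB : ContinuousAt (mob B) (V z) :=
        (hSUB.2.1 B (V z) (fun hc => hz ((c1 z).2 hc))).continuousAt
      have t1 : Tendsto (fun w => V (mob A w)) (𝓝[D] z) (𝓝 (V (mob A z))) :=
        ((V.continuous.continuousAt (x := mob A z)).tendsto.comp hcA.tendsto).mono_left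
          nhdsWithin_le_nhds
      have t2 : Tendsto (fun w => mob B (V w)) (𝓝[D] z) (𝓝 (mob B (V z))) :=
        (hcB.tendsto.comp (V.continuous.continuousAt (x := z)).tendsto).mono_left
          nhdsWithin_le_nhds
      have t3 : Tendsto (fun w => V (mob A w)) (𝓝[D] z) (𝓝 (mob B (V z))) := by
        refine t2.congr' ?_
        filter_upwards [self_mem_nhdsWithin] with w hw
        exact (hAB w hw).symm
      exact tendsto_nhds_unique t1 t3
    · have hz0' : z ≠ 0 := by
        rintro rfl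
        rw [norm_zero] at h
        linarith
      have hr0 : rf z ≠ 0 := by
        unfold rf
        simpa using hz0'
      have hrD : rf z ∈ D := by
        rw [mem_ball_zero_iff]
        unfold rf
        rw [norm_div, norm_one, norm_conj, div_lt_one (by linarith)]
        exact h
      have hV1 : V (rf z) ≠ 0 := fun hc => hr0 ((hV0' _).1 hc)
      have e1 := hSUB.2.2.2.2.2.1 A hA (rf z) hr0
      have e2 := hSUB.2.2.2.2.2.1 B hB (V (rf z)) hV1
      rw [rf_rf] at e1
      rw [e1, hrf, hAB _ hrD, ← e2, ← hrf, rf_rf]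
  · intro _
    rw [← rf_mob hA, ← rf_mob hB, hrf, h0]

end Pool.Agent.Helper29.QS
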